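import Pool.Agent.H97.R5.Final
import Pool.Agent.H97.R4.Wrap

/-!
# Few classes of shared points give small transversals (MP_75f39d)
-/

set_option autoImplicit false

namespace Pool.Agent.H97.R5

open Finset Pool.Agent.H97.GEN Pool.Agent.H83.ELZ Pool.Agent.H97.R4

variable {α : Type*} [DecidableEq α]

/-- **Few classes give small transversals.** -/
theorem few_trans {P : Finset (Finset α)} (hne : ∀ G ∈ P, G.Nonempty)
    (hf : ∀ w ∈ P, ((shared P w).image (ty P)).card ≤ 2 ∨
      (((shared P w).image (ty P)).card = 3 ∧ ∀ g ∈ P, shared P w ⊆ g → g = w)) :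
    ∀ G ∈ P, ∃ R : Finset α, SmallTr P G R := by
  classical
  intro G hG
  obtain ⟨x0, hx0⟩ := hne G hG
  have hshared : ∀ {x : α}, x ∈ shared P G ↔ x ∈ G ∧ ∃ v ∈ P, v ≠ G ∧ x ∈ v := by
    intro x
    unfold shared
    exact Finset.mem_filter
  by_cases hs : (shared P G).Nonempty
  swap
  · -- no shared points
    rw [Finset.not_nonempty_iff_eq_empty] at hs
    refine ⟨{x0}, Finset.singleton_subset_iff.2 hx0, Finset.singleton_nonempty _, by simp, ?_,
      fun h => absurd h (by simp)⟩
    intro g hg hgG hd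
    exfalso
    obtain ⟨x, hxg, hxG⟩ := Finset.not_disjoint_iff.1 hd
    have : x ∈ shared P G := hshared.2 ⟨hxG, g, hg, hgG, hxg⟩
    rw [hs] at this
    exact Finset.notMem_empty _ this
  · -- representatives
    have hch : ∀ t : Finset (Finset α), ∃ y : α, t ∈ (shared P G).image (ty P) →
        y ∈ shared P G ∧ ty P y = t := by
      intro t
      by_cases ht : t ∈ (shared P G).image (ty P)
      · obtain ⟨y, hy, hyt⟩ := Finset.mem_image.1 ht
        exact ⟨y, fun _ => ⟨hy, hyt⟩⟩
      · exact ⟨x0, fun h' => absurd h' ht⟩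
    choose f hfs using hch
    set R := ((shared P G).image (ty P)).image f with hR
    have hRmem : ∀ y ∈ R, y ∈ shared P G ∧ f (ty P y) = y := by
      intro y hy
      obtain ⟨t, ht, rfl⟩ := Finset.mem_image.1 hy
      refine ⟨(hfs t ht).1, ?_⟩
      rw [(hfs t ht).2]
    have hrep : ∀ x ∈ shared P G, ∃ y ∈ R, ty P y = ty P x := by
      intro x hx
      have ht : ty P x ∈ (shared P G).image (ty P) := Finset.mem_image_of_mem _ hx
      exact ⟨f (ty P x), Finset.mem_image_of_mem _ ht, (hfs _ ht).2⟩
    have hmem : ∀ x y : α, ty P y = ty P x → ∀ g ∈ P, (y ∈ g ↔ x ∈ g) := by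
      intro x y he g hg
      constructor
      · intro hy
        have : g ∈ ty P y := mem_ty.2 ⟨hg, hy⟩
        rw [he] at this
        exact (mem_ty.1 this).2
      · intro hx
        have : g ∈ ty P x := mem_ty.2 ⟨hg, hx⟩
        rw [← he] at this
        exact (mem_ty.1 this).2
    have hcard : R.card ≤ ((shared P G).image (ty P)).card := Finset.card_image_le
    have h3 : R.card ≤ 3 := by
      rcases hf G hG with h | h
      · omega
      · omega
    refine ⟨R, fun y hy => (hshared.1 (hRmem y hy).1).1, ?_, h3, ?_, ?_⟩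
    · obtain ⟨x, hx⟩ := hs
      obtain ⟨y, hy, -⟩ := hrep x hx
      exact ⟨y, hy⟩
    · intro g hg hgG hd
      obtain ⟨x, hxg, hxG⟩ := Finset.not_disjoint_iff.1 hd
      obtain ⟨y, hy, hyx⟩ := hrep x (hshared.2 ⟨hxG, g, hg, hgG, hxg⟩)
      exact Finset.not_disjoint_iff.2 ⟨y, (hmem x y hyx g hg).2 hxg, hy⟩
    · intro hR3
      constructor
      · intro g hg hsub
        rcases hf G hG with h | h
        · omega
        · apply h.2 g hg
          intro x hx
          obtain ⟨y, hy, hyx⟩ := hrep x hx
          exact (hmem x y hyx g hg).1 (hsub hy)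
      · have key : ∀ z, ∀ g ∈ P, g ≠ G → g ∩ R = {z} →
            ∀ x, x ∈ g ∩ G ↔ x ∈ G ∧ ty P x = ty P z := by
          intro z g hg hgG hRg x
          have hzg : z ∈ g := by
            have : z ∈ g ∩ R := by
              rw [hRg]
              exact Finset.mem_singleton_self z
            exact (Finset.mem_inter.1 this).1
          rw [Finset.mem_inter]
          constructor
          · rintro ⟨hxg, hxG⟩
            refine ⟨hxG, ?_⟩
            obtain ⟨y, hy, hyx⟩ := hrep x (hshared.2 ⟨hxG, g, hg, hgG, hxg⟩)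
            have hyg : y ∈ g ∩ R := Finset.mem_inter.2 ⟨(hmem x y hyx g hg).2 hxg, hy⟩
            rw [hRg, Finset.mem_singleton] at hyg
            rw [← hyx, hyg]
          · rintro ⟨hxG, he⟩
            exact ⟨(hmem z x he g hg).2 hzg, hxG⟩
        intro g hg g' hg' hgG hg'G z hRg hRg'
        ext x
        rw [key z g hg hgG hRg x, key z g' hg' hg'G hRg' x]

end Pool.Agent.H97.R5
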