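import Pool.Agent.H97.R5.Strict
import Pool.Agent.H83.ELZ.FinalM

/-!
# Covered generators with small transversals (MP_75f39d): union-closed families
-/

set_option autoImplicit false

namespace Pool.Agent.H97.R5

open Finset Pool.Agent.H97.GEN Pool.Agent.H83.ELZ Pool.Agent.H84.GEN Pool.Agent.H97.R4

variable {α : Type*} [DecidableEq α]

/-- A small transversal. -/
def SmallTr (P : Finset (Finset α)) (G R : Finset α) : Prop :=
  R ⊆ G ∧ R.Nonempty ∧ R.card ≤ 3 ∧
    (∀ G' ∈ P, G' ≠ G → ¬ Disjoint G' G → ¬ Disjoint G' R) ∧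
    (R.card = 3 → (∀ G' ∈ P, R ⊆ G' → G' = G) ∧
      ∀ G₁ ∈ P, ∀ G₂ ∈ P, G₁ ≠ G → G₂ ≠ G → ∀ y, G₁ ∩ R = {y} → G₂ ∩ R = {y} →
        G₁ ∩ G = G₂ ∩ G)

/-- The local form. -/
theorem tr_local {A : Finset (Finset α)} (hA : UnionClosed A) (P : Finset (Finset α))
    (hP : P ⊆ cov (gens A)) (hne : P.Nonempty)
    (hcl : ∀ w ∈ cov (gens A), ∀ i ∈ P, ¬ Disjoint w i → w ∈ P) (R : Finset α → Finset α)
    (hR : ∀ G ∈ P, SmallTr P G (R G)) :
    ∃ G ∈ P, ∃ x ∈ R G, A.card < 2 * fr A x := by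
  classical
  have hu := unions_gens hA
  have h : HT (gens A) P R :=
    { irr := fun g hg => gens_irr A hg
      PC := hP
      comp := fun w hw i hi y hyw hyi => hcl w hw i hi (Finset.not_disjoint_iff.2 ⟨y, hyw, hyi⟩)
      sub := fun w hw => (hR w hw).1
      ne := fun w hw => (hR w hw).2.1
      three := fun w hw => (hR w hw).2.2.1
      hit := fun w hw v hv hvw z hzv hzw => by
        obtain ⟨y, hyv, hyR⟩ := Finset.not_disjoint_iff.1
          ((hR w hw).2.2.2.1 v hv hvw (Finset.not_disjoint_iff.2 ⟨z, hzv, hzw⟩))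
        exact ⟨y, hyR, hyv⟩
      full := fun w hw h3 => ((hR w hw).2.2.2.2 h3).1
      uniq := fun w hw h3 => ((hR w hw).2.2.2.2 h3).2 }
  obtain ⟨w, hw, z, hz, hlt⟩ := h.exists_gt hne
  have h1 : A.card ≤ (unions (gens A)).card := by
    rw [hu]
    exact Finset.card_le_card (Finset.subset_insert _ _)
  have h2 : fr (unions (gens A)) z = fr A z := by
    rw [hu]
    exact fr_insert_empty A z
  exact ⟨w, hw, z, hz, by omega⟩

/-- The whole family. -/
theorem tr_all {A : Finset (Finset α)} (hA : UnionClosed A)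
    (h : (meet A).Nonempty ∨ SepNotPower A)
    (htr : ∀ G ∈ cov (gens A), ∃ R, SmallTr (cov (gens A)) G R) :
    ∃ x ∈ A.sup id, A.card < 2 * fr A x := by
  classical
  by_cases hc : (cov (gens A)).Nonempty
  · have hch : ∀ G : Finset α, ∃ R : Finset α, G ∈ cov (gens A) → SmallTr (cov (gens A)) G R := by
      intro G
      by_cases hG : G ∈ cov (gens A)
      · obtain ⟨R, hR⟩ := htr G hG
        exact ⟨R, fun _ => hR⟩
      · exact ⟨∅, fun h' => absurd h' hG⟩
    choose R hR using hch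
    obtain ⟨G, hG, x, hx, hlt⟩ := tr_local hA (cov (gens A)) (Finset.Subset.refl _) hc
      (fun w hw _ _ _ => hw) R hR
    exact ⟨x, mem_sup_id.2 ⟨G, gens_subset A (mem_cov.1 hG).1, (hR G hG).1 hx⟩, hlt⟩
  · apply part4_M hA h
    intro z
    rw [Finset.not_nonempty_iff_eq_empty] at hc
    rw [hc]
    simp

/-- Sets with at most three points are their own transversals. -/
theorem tr_of_card {P : Finset (Finset α)} (hne : ∀ G ∈ P, G.Nonempty)
    (h3 : ∀ G ∈ P, G.card ≤ 3) : ∀ G ∈ P, SmallTr P G G := by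
  intro G hG
  refine ⟨Finset.Subset.refl _, hne G hG, h3 G hG, fun _ _ _ h => h, fun hc => ⟨?_, ?_⟩⟩
  · intro G' hG' hsub
    exact (Finset.eq_of_subset_of_card_le hsub (by rw [hc]; exact h3 G' hG')).symm
  · intro G₁ _ G₂ _ _ _ y h1 h2
    rw [h1, h2]

end Pool.Agent.H97.R5
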