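import Pool.Agent.H97.R4.Main

/-!
# Covered generators with transversals of at most three points (MP_75f39d)
-/

set_option autoImplicit false

namespace Pool.Agent.H97.R5

open Finset Pool.Agent.H97.GEN Pool.Agent.H83.ELZ Pool.Agent.H97.R4

variable {α : Type*} [DecidableEq α]

/-- The hypotheses: `R w` is a transversal of `w`. -/
structure HT (J P : Finset (Finset α)) (R : Finset α → Finset α) : Prop where
  irr : ∀ g ∈ J, g ∉ unions (J.erase g)
  PC : P ⊆ cov J
  comp : ∀ w ∈ cov J, ∀ i ∈ P, ∀ z, z ∈ w → z ∈ i → w ∈ P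
  sub : ∀ w ∈ P, R w ⊆ w
  ne : ∀ w ∈ P, (R w).Nonempty
  three : ∀ w ∈ P, (R w).card ≤ 3
  hit : ∀ w ∈ P, ∀ v ∈ P, v ≠ w → ∀ z, z ∈ v → z ∈ w → ∃ y ∈ R w, y ∈ v
  full : ∀ w ∈ P, (R w).card = 3 → ∀ g ∈ P, R w ⊆ g → g = w
  uniq : ∀ w ∈ P, (R w).card = 3 → ∀ v ∈ P, ∀ v' ∈ P, v ≠ w → v' ≠ w → ∀ y,
    v ∩ R w = {y} → v' ∩ R w = {y} → v ∩ w = v' ∩ w

variable {J P : Finset (Finset α)} {R : Finset α → Finset α}

lemma HT.PJ (h : HT J P R) {w : Finset α} (hw : w ∈ P) : w ∈ J := (mem_cov.1 (h.PC hw)).1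

lemma HT.OO_sub (h : HT J P R) {A B w : Finset α} (hA : A ∈ unions J) (hwP : w ∈ P)
    (hAw : A ∪ w = B) {z : α} (hz : z ∈ w) (hzO : z ∈ OO J P B) : z ∈ A := by
  obtain ⟨u, hu, huP, huB, hzu⟩ := mem_OO.1 hzO
  have hnc : u ∉ cov J := fun hc => huP (h.comp u hc w hwP z hzu hz)
  have hfree : ∃ f ∈ u, ∀ g ∈ J, f ∈ g → g = u := by
    by_contra hcon
    push Not at hcon
    apply hnc
    refine mem_cov.2 ⟨hu, fun q hq => ?_⟩
    obtain ⟨g, hg, hqg, hgu⟩ := hcon q hq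
    exact ⟨g, hg, hgu, hqg⟩
  obtain ⟨f, hfu, hf⟩ := hfree
  have hfw : f ∉ w := by
    intro hfw
    have := hf w (h.PJ hwP) hfw
    rw [← this] at huP
    exact huP hwP
  have hfA : f ∈ A := by
    have := huB hfu
    rw [← hAw] at this
    rcases Finset.mem_union.1 this with h' | h'
    · exact h'
    · exact absurd h' hfw
  obtain ⟨g, hg, hgA, hfg⟩ := (mem_iff hA f).1 hfA
  rw [hf g hg hfg] at hgA
  exact hgA hzu

/-- The value of the pair `(B, w)`. -/
def bt (J : Finset (Finset α)) (R : Finset α → Finset α) (B w : Finset α) : ℤ :=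
  ∑ A ∈ fib J B w, (2 * ((A ∩ R w).card : ℤ) - (R w).card)

/-- The patterns. -/
def Mt (J : Finset (Finset α)) (R : Finset α → Finset α) (B w : Finset α) (S : Finset α) : Prop :=
  ∃ A ∈ fib J B w, A ∩ R w = S

/-- The points of the transversal in all patterns. -/
def Ft (J : Finset (Finset α)) (R : Finset α → Finset α) (B w : Finset α) : Finset α :=
  (R w).filter fun y => ∀ A ∈ fib J B w, y ∈ A

lemma mem_Ft {B w : Finset α} {y : α} : y ∈ Ft J R B w ↔ y ∈ R w ∧ ∀ A ∈ fib J B w, y ∈ A := by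
  unfold Ft
  exact Finset.mem_filter

lemma fib_sub {A B w : Finset α} (hA : A ∈ fib J B w) : A ⊆ B := by
  rw [← (mem_fib.1 hA).2]
  exact Finset.subset_union_left

lemma fib_out {A B w : Finset α} (hA : A ∈ fib J B w) {z : α} (hz : z ∈ B) (hzw : z ∉ w) :
    z ∈ A := by
  rw [← (mem_fib.1 hA).2] at hz
  rcases Finset.mem_union.1 hz with h | h
  · exact h
  · exact absurd h hzw

lemma fib_union {A A' B w : Finset α} (hA : A ∈ fib J B w) (hA' : A' ∈ fib J B w) :
    A ∪ A' ∈ fib J B w := by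
  obtain ⟨h1, h2⟩ := mem_fib.1 hA
  obtain ⟨h1', h2'⟩ := mem_fib.1 hA'
  refine mem_fib.2 ⟨union_mem h1 h1', ?_⟩
  rw [Finset.union_assoc, h2', ← h2]
  ext z
  simp only [Finset.mem_union]
  tauto

lemma fib_self {B w : Finset α} (hB : B ∈ unions J) (hw : w ⊆ B) : B ∈ fib J B w :=
  mem_fib.2 ⟨hB, Finset.union_eq_left.2 hw⟩

/-- A generator in `P` inside a union that does not contain the transversal: it is not `w`. -/
lemma HT.gen (h : HT J P R) {A B w : Finset α} (hwP : w ∈ P) (hA : A ∈ fib J B w)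
    (hRA : ¬ R w ⊆ A) {z : α} (hz : z ∈ A) (hzw : z ∈ w) (hzO : z ∉ OO J P B) :
    ∃ g ∈ P, g ⊆ A ∧ z ∈ g ∧ g ≠ w ∧ ∃ y ∈ R w, y ∈ g := by
  obtain ⟨hAF, hAw⟩ := mem_fib.1 hA
  obtain ⟨g, hg, hgA, hzg⟩ := (mem_iff hAF z).1 hz
  have hgP : g ∈ P := by
    by_contra hgP
    exact hzO (mem_OO.2 ⟨g, hg, hgP, hgA.trans (fib_sub hA), hzg⟩)
  have hgw : g ≠ w := by
    rintro rfl
    exact hRA ((h.sub g hwP).trans hgA)
  obtain ⟨y, hy, hyg⟩ := h.hit w hwP g hgP hgw z hzg hzw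
  exact ⟨g, hgP, hgA, hzg, hgw, y, hy, hyg⟩

/-- The unions with an empty pattern. -/
lemma HT.empty_eq (h : HT J P R) {A A' B w : Finset α} (hwP : w ∈ P) (hA : A ∈ fib J B w)
    (hA' : A' ∈ fib J B w) (hAe : ∀ y ∈ R w, y ∉ A) : A ⊆ A' := by
  obtain ⟨hAF', hAw'⟩ := mem_fib.1 hA'
  have hRA : ¬ R w ⊆ A := by
    intro hsub
    obtain ⟨y, hy⟩ := h.ne w hwP
    exact hAe y hy (hsub hy)
  intro z hz
  by_cases hzw : z ∈ w
  · by_cases hzO : z ∈ OO J P B
    · exact h.OO_sub hAF' hwP hAw' hzw hzO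
    · exfalso
      obtain ⟨g, _, hgA, _, _, y, hy, hyg⟩ := h.gen hwP hA hRA hz hzw hzO
      exact hAe y hy (hgA hyg)
  · exact fib_out hA' (fib_sub hA hz) hzw

/-- The unions with the pattern `{y}`. -/
lemma HT.single_eq (h : HT J P R) {A A' B w : Finset α} (hwP : w ∈ P) (h3 : (R w).card = 3)
    {y : α} (hA : A ∈ fib J B w) (hA' : A' ∈ fib J B w) (hAy : A ∩ R w = {y})
    (hAy' : A' ∩ R w = {y}) (hex : ∃ z ∈ A', z ∈ w ∧ z ∉ OO J P B) : A ⊆ A' := by
  obtain ⟨hAF', hAw'⟩ := mem_fib.1 hA'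
  have hRn : ∀ X : Finset α, X ∩ R w = {y} → ¬ R w ⊆ X := by
    intro X hX hsub
    rw [Finset.inter_eq_right.2 hsub] at hX
    rw [hX, Finset.card_singleton] at h3
    omega
  have key : ∀ X : Finset α, X ∈ fib J B w → X ∩ R w = {y} → ∀ z, z ∈ X → z ∈ w →
      z ∉ OO J P B → ∃ g ∈ P, g ⊆ X ∧ z ∈ g ∧ g ≠ w ∧ g ∩ R w = {y} := by
    intro X hX hXy z hz hzw hzO
    obtain ⟨g, hgP, hgX, hzg, hgw, q, hq, hqg⟩ := h.gen hwP hX (hRn X hXy) hz hzw hzO
    refine ⟨g, hgP, hgX, hzg, hgw, ?_⟩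
    apply Finset.Subset.antisymm
    · rw [← hXy]
      exact Finset.inter_subset_inter_right hgX
    · have hqy : q ∈ X ∩ R w := Finset.mem_inter.2 ⟨hgX hqg, hq⟩
      rw [hXy, Finset.mem_singleton] at hqy
      intro t ht
      rw [Finset.mem_singleton] at ht
      rw [ht, ← hqy]
      exact Finset.mem_inter.2 ⟨hqg, hq⟩
  intro z hz
  by_cases hzw : z ∈ w
  · by_cases hzO : z ∈ OO J P B
    · exact h.OO_sub hAF' hwP hAw' hzw hzO
    · obtain ⟨g, hgP, _, hzg, hgw, hgy⟩ := key A hA hAy z hz hzw hzO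
      obtain ⟨z', hz', hzw', hzO'⟩ := hex
      obtain ⟨g', hgP', hgA', _, hgw', hgy'⟩ := key A' hA' hAy' z' hz' hzw' hzO'
      have he := h.uniq w hwP h3 g hgP g' hgP' hgw hgw' y hgy hgy'
      have : z ∈ g ∩ w := Finset.mem_inter.2 ⟨hzg, hzw⟩
      rw [he] at this
      exact hgA' (Finset.mem_inter.1 this).1
  · exact fib_out hA' (fib_sub hA hz) hzw

lemma Mt_union {B w : Finset α} (S S' : Finset α) (hS : Mt J R B w S) (hS' : Mt J R B w S') :
    Mt J R B w (S ∪ S') := by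
  obtain ⟨A, hA, rfl⟩ := hS
  obtain ⟨A', hA', rfl⟩ := hS'
  exact ⟨A ∪ A', fib_union hA hA', Finset.union_inter_distrib_right A A' (R w)⟩

lemma HT.Mt_top (h : HT J P R) {B w : Finset α} (hwP : w ∈ P) (hB : B ∈ unions J)
    (hw : w ⊆ B) : Mt J R B w (R w) :=
  ⟨B, fib_self hB hw, Finset.inter_eq_right.2 ((h.sub w hwP).trans hw)⟩

lemma FoM_eq {B w : Finset α} : FoM (Mt J R B w) (R w) = Ft J R B w := by
  ext y
  rw [mem_FoM, mem_Ft]
  constructor
  · rintro ⟨h1, h2⟩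
    refine ⟨h1, fun A hA => ?_⟩
    exact (Finset.mem_inter.1 (h2 (A ∩ R w) Finset.inter_subset_right ⟨A, hA, rfl⟩)).1
  · rintro ⟨h1, h2⟩
    refine ⟨h1, ?_⟩
    rintro S - ⟨A, hA, rfl⟩
    exact Finset.mem_inter.2 ⟨h2 A hA, h1⟩

/-- The sum over the unions is at least the sum over the patterns, if no point of the transversal is in
a generator outside `P` inside `B`. -/
lemma HT.bM_le (h : HT J P R) {B w : Finset α} (hwP : w ∈ P)
    (hD : ∀ y ∈ R w, y ∉ OO J P B) : bM (Mt J R B w) (R w) ≤ bt J R B w := by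
  classical
  have hne := (h.ne w hwP).card_pos
  have h3 := h.three w hwP
  have h1 : bt J R B w = ∑ S ∈ (fib J B w).image (fun A => A ∩ R w),
      ((fib J B w).filter (fun A => A ∩ R w = S)).card • (2 * (S.card : ℤ) - (R w).card) := by
    unfold bt
    exact Finset.sum_comp (fun S => 2 * ((S : Finset α).card : ℤ) - (R w).card)
      (fun A => A ∩ R w)
  have h2 : bM (Mt J R B w) (R w) = ∑ S ∈ (fib J B w).image (fun A => A ∩ R w),
      (2 * (S.card : ℤ) - (R w).card) := by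
    unfold bM
    rw [← Finset.sum_filter]
    apply Finset.sum_congr _ (fun _ _ => rfl)
    ext S
    rw [Finset.mem_filter, Finset.mem_powerset, Finset.mem_image]
    constructor
    · rintro ⟨_, A, hA, hS⟩
      exact ⟨A, hA, hS⟩
    · rintro ⟨A, hA, hS⟩
      refine ⟨?_, A, hA, hS⟩
      rw [← hS]
      exact Finset.inter_subset_right
  rw [h1, h2]
  apply Finset.sum_le_sum
  intro S hS
  obtain ⟨A, hA, hAS⟩ := Finset.mem_image.1 hS
  have hmem : A ∈ (fib J B w).filter (fun A => A ∩ R w = S) := Finset.mem_filter.2 ⟨hA, hAS⟩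
  have h5 : 1 ≤ ((fib J B w).filter (fun A => A ∩ R w = S)).card := Finset.card_pos.2 ⟨A, hmem⟩
  rw [nsmul_eq_mul]
  have h6 : (1 : ℤ) ≤ (((fib J B w).filter (fun A => A ∩ R w = S)).card : ℤ) := by
    exact_mod_cast h5
  by_cases hS0 : (0 : ℤ) ≤ 2 * (S.card : ℤ) - (R w).card
  · nlinarith
  · have h7 : ((fib J B w).filter (fun A => A ∩ R w = S)).card = 1 := by
      rw [Finset.card_eq_one]
      refine ⟨A, ?_⟩
      ext A'
      rw [Finset.mem_filter, Finset.mem_singleton]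
      constructor
      · rintro ⟨hA', hAS'⟩
        by_cases hSe : S = ∅
        · subst hSe
          have e : ∀ X : Finset α, X ∩ R w = ∅ → ∀ y ∈ R w, y ∉ X := by
            intro X hX y hy hyX
            have : y ∈ X ∩ R w := Finset.mem_inter.2 ⟨hyX, hy⟩
            rw [hX] at this
            exact absurd this (Finset.notMem_empty _)
          exact Finset.Subset.antisymm (h.empty_eq hwP hA' hA (e A' hAS'))
            (h.empty_eq hwP hA hA' (e A hAS))
        · have hSc : 0 < S.card := Finset.card_pos.2 (Finset.nonempty_iff_ne_empty.2 hSe)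
          have hS1 : S.card = 1 := by
            push Not at hS0
            omega
          have hR3 : (R w).card = 3 := by
            push Not at hS0
            omega
          obtain ⟨y, rfl⟩ := Finset.card_eq_one.1 hS1
          have hex : ∀ X : Finset α, X ∩ R w = {y} → ∃ z ∈ X, z ∈ w ∧ z ∉ OO J P B := by
            intro X hX
            have : y ∈ X ∩ R w := by
              rw [hX]
              exact Finset.mem_singleton_self y
            obtain ⟨hyX, hyR⟩ := Finset.mem_inter.1 this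
            exact ⟨y, hyX, h.sub w hwP hyR, hD y hyR⟩
          exact Finset.Subset.antisymm
            (h.single_eq hwP hR3 hA' hA hAS' hAS (hex A hAS))
            (h.single_eq hwP hR3 hA hA' hAS hAS' (hex A' hAS'))
      · rintro rfl
        exact ⟨hA, hAS⟩
    rw [h7]
    push_cast
    linarith

end Pool.Agent.H97.R5
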