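import Pool.Agent.H97.R5.Final

/-!
# Members which meet at most three others have small transversals (MP_75f39d)
-/

set_option autoImplicit false

namespace Pool.Agent.H97.R5

open Finset Pool.Agent.H97.GEN Pool.Agent.H83.ELZ Pool.Agent.H84.GEN Pool.Agent.H97.R4

variable {α : Type*} [DecidableEq α]

/-- A nonempty set which meets at most three other members of `P` has a small transversal. -/
theorem tr_of_meet {P : Finset (Finset α)} {G : Finset α} (hG : G.Nonempty)
    (h3 : (P.filter fun G' => G' ≠ G ∧ ¬ Disjoint G' G).card ≤ 3) :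
    ∃ R, SmallTr P G R := by
  classical
  set N : Finset (Finset α) := P.filter fun G' => G' ≠ G ∧ ¬ Disjoint G' G with hN
  have hNP : ∀ G' ∈ N, G' ∈ P ∧ G' ≠ G ∧ ¬ Disjoint G' G := fun G' h =>
    ⟨(Finset.mem_filter.1 h).1, (Finset.mem_filter.1 h).2.1, (Finset.mem_filter.1 h).2.2⟩
  set S : Finset (Finset α) := G.powerset.filter
    (fun R => R.Nonempty ∧ ∀ G' ∈ N, ¬ Disjoint G' R) with hS
  have hmS : ∀ R, R ⊆ G → R.Nonempty → (∀ G' ∈ N, ¬ Disjoint G' R) → R ∈ S := by
    intro R h1 h2 h4
    exact Finset.mem_filter.2 ⟨Finset.mem_powerset.2 h1, h2, h4⟩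
  have hGS : G ∈ S := hmS G (Finset.Subset.refl G) hG fun G' h => (hNP G' h).2.2
  obtain ⟨R, hRS, hmin⟩ := Finset.exists_min_image S Finset.card ⟨G, hGS⟩
  have hRG : R ⊆ G := Finset.mem_powerset.1 (Finset.mem_filter.1 hRS).1
  have hRne : R.Nonempty := (Finset.mem_filter.1 hRS).2.1
  have hRhit : ∀ G' ∈ N, ¬ Disjoint G' R := (Finset.mem_filter.1 hRS).2.2
  have hcard : R.card ≤ 3 := by
    rcases N.eq_empty_or_nonempty with h0 | hne
    · obtain ⟨x, hx⟩ := hG
      have := hmin {x} (hmS {x} (Finset.singleton_subset_iff.2 hx) (Finset.singleton_nonempty x)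
        (by
          intro G' h
          rw [h0] at h
          exact absurd h (Finset.notMem_empty _)))
      rw [Finset.card_singleton] at this
      omega
    · have hex : ∀ G' ∈ N, ∃ y, y ∈ G' ∧ y ∈ G := fun G' h =>
        Finset.not_disjoint_iff.1 (hNP G' h).2.2
      haveI : Nonempty α := ⟨hG.choose⟩
      choose! f hf using hex
      have := hmin (N.image f) (hmS (N.image f)
        (by
          intro y hy
          obtain ⟨G', h, rfl⟩ := Finset.mem_image.1 hy
          exact (hf G' h).2)
        (hne.image f)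
        (fun G' h => Finset.not_disjoint_iff.2 ⟨f G', (hf G' h).1, Finset.mem_image_of_mem f h⟩))
      exact this.trans (Finset.card_image_le.trans h3)
  refine ⟨R, hRG, hRne, hcard, fun G' hG' hne hd => hRhit G' (Finset.mem_filter.2 ⟨hG', hne, hd⟩),
    fun hR3 => ?_⟩
  have hpr : ∀ y ∈ R, ∃ G', G' ∈ N ∧ G' ∩ R = {y} := by
    intro y hy
    by_contra hno
    have hne : (R.erase y).Nonempty := by
      rw [← Finset.card_pos, Finset.card_erase_of_mem hy]
      omega
    have := hmin (R.erase y) (hmS _ ((Finset.erase_subset y R).trans hRG) hne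
      (by
        intro G' h hd
        apply hno
        refine ⟨G', h, ?_⟩
        ext z
        rw [Finset.mem_inter, Finset.mem_singleton]
        constructor
        · rintro ⟨hz1, hz2⟩
          by_contra hzy
          exact Finset.disjoint_left.1 hd hz1 (Finset.mem_erase.2 ⟨hzy, hz2⟩)
        · rintro rfl
          obtain ⟨u, hu1, hu2⟩ := Finset.not_disjoint_iff.1 (hRhit G' h)
          by_cases huz : u = z
          · exact ⟨huz ▸ hu1, hy⟩
          · exact absurd (Finset.mem_erase.2 ⟨huz, hu2⟩) (Finset.disjoint_left.1 hd hu1)))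
    rw [Finset.card_erase_of_mem hy] at this
    omega
  haveI : Nonempty (Finset α) := ⟨G⟩
  choose! g hg using hpr
  have hinj : Set.InjOn g (R : Set α) := by
    intro y hy z hz h
    have h1 := (hg y hy).2
    rw [h, (hg z hz).2] at h1
    exact (Finset.singleton_inj.1 h1).symm
  have himg : R.image g = N := by
    apply Finset.eq_of_subset_of_card_le
    · intro G' h
      obtain ⟨y, hy, rfl⟩ := Finset.mem_image.1 h
      exact (hg y hy).1
    · rw [Finset.card_image_of_injOn hinj, hR3]
      exact h3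
  have hone : ∀ G' ∈ N, ∃ y ∈ R, G' = g y := by
    intro G' h
    rw [← himg] at h
    obtain ⟨y, hy, rfl⟩ := Finset.mem_image.1 h
    exact ⟨y, hy, rfl⟩
  constructor
  · intro G' hG' hsub
    by_contra hne
    obtain ⟨x, hx⟩ := hRne
    have hmem : G' ∈ N := Finset.mem_filter.2
      ⟨hG', hne, Finset.not_disjoint_iff.2 ⟨x, hsub hx, hRG hx⟩⟩
    obtain ⟨y, hy, rfl⟩ := hone G' hmem
    have h1 := (hg y hy).2
    rw [Finset.inter_eq_right.2 hsub] at h1
    rw [h1, Finset.card_singleton] at hR3
    omega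
  · intro G₁ h₁ G₂ h₂ hn₁ hn₂ y e₁ e₂
    have key : ∀ G' ∈ P, G' ≠ G → G' ∩ R = {y} → G' = g y := by
      intro G' hG' hne e
      have hy : y ∈ G' ∩ R := by
        rw [e]
        exact Finset.mem_singleton_self y
      have hmem : G' ∈ N := Finset.mem_filter.2 ⟨hG', hne, Finset.not_disjoint_iff.2
        ⟨y, (Finset.mem_inter.1 hy).1, hRG (Finset.mem_inter.1 hy).2⟩⟩
      obtain ⟨z, hz, rfl⟩ := hone G' hmem
      have h1 := (hg z hz).2
      rw [e] at h1
      rw [Finset.singleton_inj.1 h1]
    rw [key G₁ h₁ hn₁ e₁, key G₂ h₂ hn₂ e₂]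

/-- If every member of `P` is nonempty and meets at most three other members, all have small
transversals. -/
theorem tr_all_of_meet {P : Finset (Finset α)} (hne : ∀ G ∈ P, G.Nonempty)
    (h3 : ∀ G ∈ P, (P.filter fun G' => G' ≠ G ∧ ¬ Disjoint G' G).card ≤ 3) :
    ∀ G ∈ P, ∃ R, SmallTr P G R :=
  fun G hG => tr_of_meet (hne G hG) (h3 G hG)

/-- A nonempty set with at most two points has a small transversal. -/
theorem tr_of_two {P : Finset (Finset α)} {G : Finset α} (hG : G.Nonempty) (h2 : G.card ≤ 2) :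
    ∃ R, SmallTr P G R :=
  ⟨G, Finset.Subset.refl G, hG, h2.trans (by norm_num), fun _ _ _ h => h,
    fun h3 => by omega⟩

/-- A set with three points, contained in no other member, has a small transversal. -/
theorem tr_of_three {P : Finset (Finset α)} {G : Finset α} (h3 : G.card = 3)
    (hmax : ∀ G' ∈ P, G ⊆ G' → G' = G) :
    ∃ R, SmallTr P G R :=
  ⟨G, Finset.Subset.refl G, Finset.card_pos.1 (by omega), h3.le, fun _ _ _ h => h,
    fun _ => ⟨hmax, fun G₁ _ G₂ _ _ _ y e₁ e₂ => by rw [e₁, e₂]⟩⟩

end Pool.Agent.H97.R5
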