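import Pool.Agent.H97.R5.Sum

/-!
# Covered generators with transversals of at most three points (MP_75f39d): the strict part
-/

set_option autoImplicit false

namespace Pool.Agent.H97.R5

open Finset Pool.Agent.H97.GEN Pool.Agent.H83.ELZ Pool.Agent.H97.R4

variable {α : Type*} [DecidableEq α]

variable {J P : Finset (Finset α)} {R : Finset α → Finset α}

lemma HT.gne (h : HT J P R) {g : Finset α} (hg : g ∈ J) : g.Nonempty := by
  rw [Finset.nonempty_iff_ne_empty]
  rintro rfl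
  exact h.irr _ hg (empty_mem _)

/-- **Transversals with at most three points.** -/
theorem HT.exists_gt (h : HT J P R) (hP : P.Nonempty) :
    ∃ w ∈ P, ∃ z ∈ R w, (unions J).card < 2 * fr (unions J) z := by
  classical
  by_contra hcon
  push Not at hcon
  have hVle : ∀ w ∈ P, ∑ B ∈ (unions J).filter (fun B => w ⊆ B), bt J R B w ≤ 0 := by
    intro w hw
    rw [← h.sum_w hw]
    apply Finset.sum_nonpos
    intro z hz
    have := hcon w hw z hz
    omega
  have hst : ∀ B ∈ unions J, 0 ≤ st J P R B := fun B hB => h.st_nonneg hB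
  have hs1 : 0 ≤ ∑ B ∈ unions J, st J P R B := Finset.sum_nonneg hst
  have hs3 : ∑ w ∈ P, ∑ B ∈ (unions J).filter (fun B => w ⊆ B), bt J R B w
      = ∑ B ∈ unions J, st J P R B := by
    unfold st
    simp_rw [Finset.sum_filter]
    exact Finset.sum_comm
  have hs2 : ∑ w ∈ P, ∑ B ∈ (unions J).filter (fun B => w ⊆ B), bt J R B w ≤ 0 :=
    Finset.sum_nonpos hVle
  have hV0 : ∀ w ∈ P, ∑ B ∈ (unions J).filter (fun B => w ⊆ B), bt J R B w = 0 :=
    (Finset.sum_eq_zero_iff_of_nonpos hVle).1 (by omega)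
  have hst0 : ∀ B ∈ unions J, st J P R B = 0 :=
    (Finset.sum_eq_zero_iff_of_nonneg hst).1 (by omega)
  -- a positive value and no negative value is impossible
  have hpn : ∀ B ∈ unions J, ∀ w ∈ P, w ⊆ B → 0 < bt J R B w →
      (∀ v ∈ P, v ⊆ B → 0 ≤ bt J R B v) → False := by
    intro B hB w hw hwB hpos hnn
    have hle : bt J R B w ≤ st J P R B := by
      unfold st
      apply Finset.single_le_sum (f := fun v => bt J R B v) ?_
        (Finset.mem_filter.2 ⟨hw, hwB⟩)
      intro v hv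
      obtain ⟨hvP, hvB⟩ := Finset.mem_filter.1 hv
      exact hnn v hvP hvB
    have := hst0 B hB
    omega
  -- (c)
  have hc : ∀ u ∈ J, u ∉ P → ∀ w ∈ P, ∀ z, z ∈ R w → z ∉ u := by
    intro u hu huP w hw z hzR hzu
    have hBF : u ∪ w ∈ unions J := union_mem (self_mem hu) (self_mem (h.PJ hw))
    have hzO : z ∈ OO J P (u ∪ w) := mem_OO.2 ⟨u, hu, huP, Finset.subset_union_left, hzu⟩
    have h1 := (h.dead_le hBF hw Finset.subset_union_right hzR hzO).2
    apply hpn (u ∪ w) hBF w hw Finset.subset_union_right (by omega)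
    intro v hv hvB
    by_contra hneg
    push Not at hneg
    obtain ⟨-, r, hr, hpr, -⟩ := h.struct hBF hv hvB hneg
    rcases Finset.mem_union.1 (hvB (h.sub v hv hr)) with h3 | h3
    · have := hpr u hu Finset.subset_union_left h3
      rw [this] at huP
      exact huP hv
    · have := hpr w (h.PJ hw) Finset.subset_union_right h3
      rw [← this] at hneg
      omega
  -- (d)
  have hd : ∀ g ∈ J, ∀ u ∈ P, g ⊆ u → g ≠ u → False := by
    intro g hg u hu hgu hne
    have hgc : g ∈ cov J := mem_cov.2 ⟨hg, fun p hp => ⟨u, h.PJ hu, hne.symm, hgu hp⟩⟩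
    obtain ⟨z0, hz0⟩ := h.gne hg
    have hgP : g ∈ P := h.comp g hgc u hu z0 hz0 (hgu hz0)
    have hK2 : (R g).card ≤ 2 := by
      have h3 := h.three g hgP
      by_contra hcon2
      have h4 : (R g).card = 3 := by omega
      exact hne (h.full g hgP h4 u hu ((h.sub g hgP).trans hgu)).symm
    have huJ : u ∈ unions J := self_mem (h.PJ hu)
    have hnn : ∀ B ∈ (unions J).filter (fun B => g ⊆ B), 0 ≤ bt J R B g := by
      intro B hB
      obtain ⟨hBF, hgB⟩ := Finset.mem_filter.1 hB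
      exact h.bt_small hBF hgP hgB hK2
    have hv0 : bt J R u g = 0 := (Finset.sum_eq_zero_iff_of_nonneg hnn).1 (hV0 g hgP) u
      (Finset.mem_filter.2 ⟨huJ, hgu⟩)
    have hM0 : ∃ A ∈ fib J u g, ∀ y ∈ R g, y ∉ A := by
      by_contra hno
      push Not at hno
      have := h.bt_pos huJ hgP hgu hno
      omega
    obtain ⟨A, hA, hAe⟩ := hM0
    obtain ⟨hAF, hAg⟩ := mem_fib.1 hA
    have hnO : ∀ z, z ∉ OO J P u := by
      intro z hzO
      obtain ⟨u', hu', hu'P, hu'u, hzu'⟩ := mem_OO.1 hzO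
      have hu'c : u' ∈ cov J := mem_cov.2 ⟨hu', fun p hp =>
        ⟨u, h.PJ hu, fun he => hu'P (he ▸ hu), hu'u hp⟩⟩
      exact hu'P (h.comp u' hu'c u hu z hzu' (hu'u hzu'))
    have hRA : ¬ R g ⊆ A := by
      intro hsub
      obtain ⟨y, hy⟩ := h.ne g hgP
      exact hAe y hy (hsub hy)
    have hdis : ∀ z ∈ A, z ∉ g := by
      intro z hzA hzg
      obtain ⟨g', _, hgA', _, _, y, hy, hyg⟩ := h.gen hgP hA hRA hzA hzg (hnO z)
      exact hAe y hy (hgA' hyg)
    apply h.irr u (h.PJ hu)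
    apply mem_unions_of
    intro y hy
    rw [← hAg] at hy
    rcases Finset.mem_union.1 hy with hyA | hyg
    · obtain ⟨G, hG, hGA, hyG⟩ := (mem_iff hAF y).1 hyA
      refine ⟨G, Finset.mem_erase.2 ⟨?_, hG⟩, ?_, hyG⟩
      · rintro rfl
        exact hdis z0 (hGA (hgu hz0)) hz0
      · rw [← hAg]
        exact hGA.trans Finset.subset_union_left
    · exact ⟨g, Finset.mem_erase.2 ⟨hne, hg⟩, hgu, hyg⟩
  -- (e)
  have hin : ∀ w ∈ P, ∀ u ∈ P, ∀ g ∈ J, g ⊆ w ∪ u → g ∈ P := by
    intro w hw u hu g hg hsub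
    by_contra hgP
    have hgc : g ∉ cov J := by
      intro hgc
      obtain ⟨z, hz⟩ := h.gne hg
      rcases Finset.mem_union.1 (hsub hz) with h1 | h1
      · exact hgP (h.comp g hgc w hw z hz h1)
      · exact hgP (h.comp g hgc u hu z hz h1)
    apply hgc
    refine mem_cov.2 ⟨hg, fun p hp => ?_⟩
    rcases Finset.mem_union.1 (hsub hp) with h1 | h1
    · exact ⟨w, h.PJ hw, fun he => hgP (he ▸ hw), h1⟩
    · exact ⟨u, h.PJ hu, fun he => hgP (he ▸ hu), h1⟩
  have hnO : ∀ w ∈ P, ∀ u ∈ P, ∀ z, z ∉ OO J P (w ∪ u) := by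
    intro w hw u hu z hz
    obtain ⟨u', hu', hu'P, hsub, -⟩ := mem_OO.1 hz
    exact hu'P (hin w hw u hu u' hu' hsub)
  have he0 : ∀ w ∈ P, ∀ u ∈ P, w ≠ u → ∀ x, x ∈ w → x ∈ u →
      ∀ A ∈ fib J (w ∪ u) w, ∃ y ∈ R w, y ∈ A := by
    intro w hw u hu hwu x hxw hxu A hA
    by_contra hno
    push Not at hno
    obtain ⟨hAF, hAw⟩ := mem_fib.1 hA
    have hRA : ¬ R w ⊆ A := by
      intro hsub
      obtain ⟨y, hy⟩ := h.ne w hw
      exact hno y hy (hsub hy)
    have hdis : ∀ z ∈ A, z ∉ w := by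
      intro z hzA hzw
      obtain ⟨g', _, hgA', _, _, y, hy, hyg⟩ := h.gen hw hA hRA hzA hzw (hnO w hw u hu z)
      exact hno y hy (hgA' hyg)
    have hAu : A ⊆ u := by
      intro z hz
      have : z ∈ w ∪ u := by
        rw [← hAw]
        exact Finset.mem_union_left _ hz
      rcases Finset.mem_union.1 this with h1 | h1
      · exact absurd h1 (hdis z hz)
      · exact h1
    rcases A.eq_empty_or_nonempty with h0 | ⟨z, hz⟩
    · apply hd u (h.PJ hu) w hw ?_ hwu.symm
      rw [h0, Finset.empty_union] at hAw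
      rw [hAw]
      exact Finset.subset_union_right
    · obtain ⟨G, hG, hGA, hzG⟩ := (mem_iff hAF z).1 hz
      apply hd G hG u hu (hGA.trans hAu)
      rintro rfl
      exact hdis x (hGA hxu) hxw
  have he : ∀ w ∈ P, ∀ u ∈ P, w ≠ u → ∀ x, x ∈ w → x ∈ u → False := by
    intro w hw u hu hwu x hxw hxu
    have hBF : w ∪ u ∈ unions J := union_mem (self_mem (h.PJ hw)) (self_mem (h.PJ hu))
    have h1 := he0 w hw u hu hwu x hxw hxu
    have h2 := he0 u hu w hw hwu.symm x hxu hxw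
    rw [Finset.union_comm] at h2
    apply hpn (w ∪ u) hBF w hw Finset.subset_union_left
      (h.bt_pos hBF hw Finset.subset_union_left h1)
    intro v hvP hvB
    by_contra hneg
    push Not at hneg
    obtain ⟨⟨A0, hA0, h0⟩, r, hr, hpr, -⟩ := h.struct hBF hvP hvB hneg
    rcases Finset.mem_union.1 (hvB (h.sub v hvP hr)) with h3 | h3
    · have := hpr w (h.PJ hw) Finset.subset_union_left h3
      subst this
      obtain ⟨y, hy, hyA⟩ := h1 A0 hA0
      exact h0 y hy hyA
    · have := hpr u (h.PJ hu) Finset.subset_union_right h3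
      subst this
      obtain ⟨y, hy, hyA⟩ := h2 A0 hA0
      exact h0 y hy hyA
  -- (f)
  obtain ⟨w, hw⟩ := hP
  obtain ⟨x, hx⟩ := h.ne w hw
  have hxw := h.sub w hw hx
  obtain ⟨u, hu, huw, hxu⟩ := (mem_cov.1 (h.PC hw)).2 x hxw
  by_cases huP : u ∈ P
  · exact he w hw u huP huw.symm x hxw hxu
  · exact hc u hu huP w hw x hx hxu

end Pool.Agent.H97.R5
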