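import Pool.Agent.H97.R5.Main

/-!
# Covered generators with transversals of at most three points (MP_75f39d): the sums
-/

set_option autoImplicit false

namespace Pool.Agent.H97.R5

open Finset Pool.Agent.H97.GEN Pool.Agent.H83.ELZ Pool.Agent.H97.R4

variable {α : Type*} [DecidableEq α]

variable {J P : Finset (Finset α)} {R : Finset α → Finset α}

/-- A point of the transversal in a generator outside `P` inside `B`. -/
lemma HT.dead_le (h : HT J P R) {B w : Finset α} (hB : B ∈ unions J) (hwP : w ∈ P) (hwB : w ⊆ B)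
    {d : α} (hd : d ∈ R w) (hdO : d ∈ OO J P B) :
    ((Ft J R B w).card : ℤ) ≤ bt J R B w ∧ 1 ≤ bt J R B w := by
  classical
  have h3 := h.three w hwP
  have hBf : B ∈ fib J B w := fib_self hB hwB
  have hRB : B ∩ R w = R w := Finset.inter_eq_right.2 ((h.sub w hwP).trans hwB)
  have hdA : ∀ A ∈ fib J B w, d ∈ A := by
    intro A hA
    obtain ⟨hAF, hAw⟩ := mem_fib.1 hA
    exact h.OO_sub hAF hwP hAw (h.sub w hwP hd) hdO
  have hdF : d ∈ Ft J R B w := mem_Ft.2 ⟨hd, hdA⟩
  have hFsub : Ft J R B w ⊆ R w := Finset.filter_subset _ _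
  have hFc := Finset.card_le_card hFsub
  have hF0 : 0 < (Ft J R B w).card := Finset.card_pos.2 ⟨d, hdF⟩
  have hFA : ∀ A ∈ fib J B w, (Ft J R B w).card ≤ (A ∩ R w).card := by
    intro A hA
    apply Finset.card_le_card
    intro y hy
    obtain ⟨h1, h2⟩ := mem_Ft.1 hy
    exact Finset.mem_inter.2 ⟨h2 A hA, h1⟩
  have hsplit : bt J R B w = (2 * ((B ∩ R w).card : ℤ) - (R w).card)
      + ∑ A ∈ (fib J B w).erase B, (2 * ((A ∩ R w).card : ℤ) - (R w).card) := by
    unfold bt
    exact (Finset.add_sum_erase _ (fun A => 2 * ((A ∩ R w).card : ℤ) - (R w).card) hBf).symm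
  rw [hRB] at hsplit
  by_cases hbig : (R w).card ≤ 2 * (Ft J R B w).card
  · -- all terms are nonnegative
    have h0 : 0 ≤ ∑ A ∈ (fib J B w).erase B, (2 * ((A ∩ R w).card : ℤ) - (R w).card) := by
      apply Finset.sum_nonneg
      intro A hA
      have h4 := hFA A (Finset.mem_of_mem_erase hA)
      have h5 : ((R w).card : ℤ) ≤ 2 * (Ft J R B w).card := by exact_mod_cast hbig
      have h6 : ((Ft J R B w).card : ℤ) ≤ (A ∩ R w).card := by exact_mod_cast h4
      linarith
    have h7 : ((Ft J R B w).card : ℤ) ≤ (R w).card := by exact_mod_cast hFc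
    have h8 : (1 : ℤ) ≤ (Ft J R B w).card := by exact_mod_cast hF0
    constructor
    · rw [hsplit]
      linarith
    · rw [hsplit]
      linarith
  · -- three points, one forced
    have hR3 : (R w).card = 3 := by omega
    have hF1 : (Ft J R B w).card = 1 := by omega
    set s1 := ((fib J B w).erase B).filter (fun A => A ∩ R w = {d}) with hs1
    have hs1c : s1.card ≤ 2 := by
      set L := s1.filter (fun A => ∃ z ∈ A, z ∈ w ∧ z ∉ OO J P B) with hL
      set N := s1.filter (fun A => ¬ ∃ z ∈ A, z ∈ w ∧ z ∉ OO J P B) with hN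
      have hLN : L.card + N.card = s1.card := Finset.card_filter_add_card_filter_not _
      have hmem : ∀ A ∈ s1, A ∈ fib J B w ∧ A ∩ R w = {d} := by
        intro A hA
        obtain ⟨h4, h5⟩ := Finset.mem_filter.1 hA
        exact ⟨Finset.mem_of_mem_erase h4, h5⟩
      have hL1 : L.card ≤ 1 := by
        rw [Finset.card_le_one]
        intro A hA A' hA'
        obtain ⟨h4, h5⟩ := Finset.mem_filter.1 hA
        obtain ⟨h4', h5'⟩ := Finset.mem_filter.1 hA'
        obtain ⟨h6, h7⟩ := hmem A h4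
        obtain ⟨h6', h7'⟩ := hmem A' h4'
        exact Finset.Subset.antisymm (h.single_eq hwP hR3 h6 h6' h7 h7' h5')
          (h.single_eq hwP hR3 h6' h6 h7' h7 h5)
      have hN1 : N.card ≤ 1 := by
        rw [Finset.card_le_one]
        intro A hA A' hA'
        obtain ⟨h4, h5⟩ := Finset.mem_filter.1 hA
        obtain ⟨h4', h5'⟩ := Finset.mem_filter.1 hA'
        obtain ⟨h6, _⟩ := hmem A h4
        obtain ⟨h6', _⟩ := hmem A' h4'
        have key : ∀ X Y : Finset α, X ∈ fib J B w → Y ∈ fib J B w →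
            (¬ ∃ z ∈ X, z ∈ w ∧ z ∉ OO J P B) → X ⊆ Y := by
          intro X Y hX hY hno z hz
          obtain ⟨hYF, hYw⟩ := mem_fib.1 hY
          by_cases hzw : z ∈ w
          · by_cases hzO : z ∈ OO J P B
            · exact h.OO_sub hYF hwP hYw hzw hzO
            · exact absurd ⟨z, hz, hzw, hzO⟩ hno
          · exact fib_out hY (fib_sub hX hz) hzw
        exact Finset.Subset.antisymm (key A A' h6 h6' h5) (key A' A h6' h6 h5')
      omega
    have hge : -2 ≤ ∑ A ∈ (fib J B w).erase B, (2 * ((A ∩ R w).card : ℤ) - (R w).card) := by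
      rw [← Finset.sum_filter_add_sum_filter_not _ (fun A => A ∩ R w = {d})]
      have e1 : ∑ A ∈ ((fib J B w).erase B).filter (fun A => A ∩ R w = {d}),
          (2 * ((A ∩ R w).card : ℤ) - (R w).card) = - (s1.card : ℤ) := by
        rw [← hs1]
        have : ∀ A ∈ s1, (2 * ((A ∩ R w).card : ℤ) - (R w).card) = -1 := by
          intro A hA
          rw [(Finset.mem_filter.1 hA).2, Finset.card_singleton, hR3]
          norm_num
        rw [Finset.sum_congr rfl this, Finset.sum_const, nsmul_eq_mul]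
        ring
      have e2 : 0 ≤ ∑ A ∈ ((fib J B w).erase B).filter (fun A => ¬ A ∩ R w = {d}),
          (2 * ((A ∩ R w).card : ℤ) - (R w).card) := by
        apply Finset.sum_nonneg
        intro A hA
        obtain ⟨h4, h5⟩ := Finset.mem_filter.1 hA
        have h6 := Finset.mem_of_mem_erase h4
        have h7 : d ∈ A ∩ R w := Finset.mem_inter.2 ⟨hdA A h6, hd⟩
        have h8 : 2 ≤ (A ∩ R w).card := by
          by_contra hcon
          have h9 : (A ∩ R w).card = 1 := by
            have := Finset.card_pos.2 ⟨d, h7⟩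
            omega
          obtain ⟨q, hq⟩ := Finset.card_eq_one.1 h9
          rw [hq, Finset.mem_singleton] at h7
          rw [← h7] at hq
          exact h5 hq
        have h9 : (2 : ℤ) ≤ (A ∩ R w).card := by exact_mod_cast h8
        rw [hR3]
        push_cast
        linarith
      rw [e1]
      have : (s1.card : ℤ) ≤ 2 := by exact_mod_cast hs1c
      linarith
    have e3 : ((R w).card : ℤ) = 3 := by exact_mod_cast hR3
    have e4 : ((Ft J R B w).card : ℤ) = 1 := by exact_mod_cast hF1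
    constructor
    · rw [hsplit, e4]
      linarith
    · rw [hsplit]
      linarith

lemma HT.bt_forced (h : HT J P R) {B w : Finset α} (hB : B ∈ unions J) (hwP : w ∈ P)
    (hwB : w ⊆ B) (hF : (Ft J R B w).Nonempty) : ((Ft J R B w).card : ℤ) ≤ bt J R B w := by
  by_cases hD : ∃ d ∈ R w, d ∈ OO J P B
  · obtain ⟨d, hd, hdO⟩ := hD
    exact (h.dead_le hB hwP hwB hd hdO).1
  · push Not at hD
    have h1 := bM_forced Mt_union (h.Mt_top hwP hB hwB) (h.three w hwP)
      (by rw [FoM_eq]; exact hF)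
    rw [FoM_eq] at h1
    exact h1.trans (h.bM_le hwP hD)

lemma HT.bt_ge (h : HT J P R) {B w : Finset α} (hB : B ∈ unions J) (hwP : w ∈ P)
    (hwB : w ⊆ B) : -1 ≤ bt J R B w := by
  by_cases hD : ∃ d ∈ R w, d ∈ OO J P B
  · obtain ⟨d, hd, hdO⟩ := hD
    have := (h.dead_le hB hwP hwB hd hdO).2
    linarith
  · push Not at hD
    exact (bM_ge Mt_union (h.Mt_top hwP hB hwB) (h.three w hwP)).trans (h.bM_le hwP hD)

/-- No empty pattern: positive. -/
lemma HT.bt_pos (h : HT J P R) {B w : Finset α} (hB : B ∈ unions J) (hwP : w ∈ P)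
    (hwB : w ⊆ B) (h0 : ∀ A ∈ fib J B w, ∃ y ∈ R w, y ∈ A) : 0 < bt J R B w := by
  by_cases hD : ∃ d ∈ R w, d ∈ OO J P B
  · obtain ⟨d, hd, hdO⟩ := hD
    have := (h.dead_le hB hwP hwB hd hdO).2
    linarith
  · push Not at hD
    refine lt_of_lt_of_le ?_ (h.bM_le hwP hD)
    apply bM_pos Mt_union (h.Mt_top hwP hB hwB) (h.ne w hwP) (h.three w hwP)
    rintro ⟨A, hA, hAe⟩
    obtain ⟨y, hy, hyA⟩ := h0 A hA
    have : y ∈ A ∩ R w := Finset.mem_inter.2 ⟨hyA, hy⟩
    rw [hAe] at this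
    exact absurd this (Finset.notMem_empty _)

/-- At most two points: not negative. -/
lemma HT.bt_small (h : HT J P R) {B w : Finset α} (hB : B ∈ unions J) (hwP : w ∈ P)
    (hwB : w ⊆ B) (h2 : (R w).card ≤ 2) : 0 ≤ bt J R B w := by
  by_cases hD : ∃ d ∈ R w, d ∈ OO J P B
  · obtain ⟨d, hd, hdO⟩ := hD
    have := (h.dead_le hB hwP hwB hd hdO).2
    linarith
  · push Not at hD
    exact (bM_small (h.Mt_top hwP hB hwB) h2).trans (h.bM_le hwP hD)

/-- The structure of a pair with a negative value. -/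
lemma HT.struct (h : HT J P R) {B w : Finset α} (hB : B ∈ unions J) (hwP : w ∈ P) (hwB : w ⊆ B)
    (hneg : bt J R B w < 0) :
    (∃ A0 ∈ fib J B w, ∀ y ∈ R w, y ∉ A0) ∧
      ∃ r ∈ R w, (∀ g ∈ J, g ⊆ B → r ∈ g → g = w) ∧
      ∃ v ∈ P, v ⊆ B ∧ v ≠ w ∧ r ∉ v ∧ ∃ z ∈ v, z ∈ w := by
  have hD : ∀ y ∈ R w, y ∉ OO J P B := by
    intro d hd hdO
    have := (h.dead_le hB hwP hwB hd hdO).2
    linarith
  have hneg' : bM (Mt J R B w) (R w) < 0 := lt_of_le_of_lt (h.bM_le hwP hD) hneg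
  obtain ⟨hc, ⟨A0, hA0, h0⟩, p, hp, ⟨A1, hA1, h1⟩, r, hr, hrp, hT⟩ :=
    bM_loser Mt_union (h.Mt_top hwP hB hwB) (h.three w hwP) hneg'
  have h0' : ∀ y ∈ R w, y ∉ A0 := by
    intro y hy hyA
    have : y ∈ A0 ∩ R w := Finset.mem_inter.2 ⟨hyA, hy⟩
    rw [h0] at this
    exact absurd this (Finset.notMem_empty _)
  refine ⟨⟨A0, hA0, h0'⟩, r, hr, ?_, ?_⟩
  · intro g hg hgB hrg
    have hgP : g ∈ P := by
      by_contra hgP
      exact hD r hr (mem_OO.2 ⟨g, hg, hgP, hgB, hrg⟩)
    have hmem : A0 ∪ g ∈ fib J B w := by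
      obtain ⟨hAF, hAw⟩ := mem_fib.1 hA0
      refine mem_fib.2 ⟨union_mem hAF (self_mem hg), ?_⟩
      apply Finset.Subset.antisymm
      · exact Finset.union_subset (Finset.union_subset (fib_sub hA0) hgB) hwB
      · intro z hz
        by_cases hzw : z ∈ w
        · exact Finset.mem_union_right _ hzw
        · exact Finset.mem_union_left _ (Finset.mem_union_left _ (fib_out hA0 hz hzw))
    have hfull := hT _ Finset.inter_subset_right ⟨A0 ∪ g, hmem, rfl⟩
      (Finset.mem_inter.2 ⟨Finset.mem_union_right _ hrg, hr⟩)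
    apply h.full w hwP hc g hgP
    intro y hy
    have : y ∈ (A0 ∪ g) ∩ R w := by
      rw [hfull]
      exact hy
    rcases Finset.mem_union.1 (Finset.mem_inter.1 this).1 with h' | h'
    · exact absurd h' (h0' y hy)
    · exact h'
  · have hp1 : p ∈ A1 ∩ R w := by
      rw [h1]
      exact Finset.mem_singleton_self p
    have hpA := (Finset.mem_inter.1 hp1).1
    have hrA : r ∉ A1 := by
      intro hrA
      have : r ∈ A1 ∩ R w := Finset.mem_inter.2 ⟨hrA, hr⟩
      rw [h1, Finset.mem_singleton] at this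
      exact hrp this
    obtain ⟨v, hvP, hvA, hpv, hvw, _⟩ := h.gen hwP hA1 (fun hsub => hrA (hsub hr)) hpA
      (h.sub w hwP hp) (hD p hp)
    exact ⟨v, hvP, hvA.trans (fib_sub hA1), hvw, fun hh => hrA (hvA hh), p, hpv, h.sub w hwP hp⟩

/-- What a negative pair is charged to: the point `y`. -/
def Chg (J : Finset (Finset α)) (R : Finset α → Finset α) (B w : Finset α) (y : α) : Prop :=
  y ∈ w ∧ (∃ A0 ∈ fib J B w, ∀ z ∈ R w, z ∉ A0) ∧ ∃ r ∈ w, ∀ g ∈ J, g ⊆ B → r ∈ g → g = w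

lemma HT.charge (h : HT J P R) {B w : Finset α} (hB : B ∈ unions J) (hwP : w ∈ P)
    (hwB : w ⊆ B) (hneg : bt J R B w < 0) :
    ∃ v ∈ P, v ⊆ B ∧ ∃ y ∈ Ft J R B v, Chg J R B w y := by
  obtain ⟨hA0, r, hr, hpr, v, hvP, hvB, hvw, hrv, z, hzv, hzw⟩ := h.struct hB hwP hwB hneg
  obtain ⟨y, hy, hyw⟩ := h.hit v hvP w hwP hvw.symm z hzw hzv
  refine ⟨v, hvP, hvB, y, mem_Ft.2 ⟨hy, fun A hA => ?_⟩, hyw, hA0, r, h.sub w hwP hr, hpr⟩
  have hrA : r ∈ A := fib_out hA (hwB (h.sub w hwP hr)) hrv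
  obtain ⟨g, hg, hgA, hrg⟩ := (mem_iff (mem_fib.1 hA).1 r).1 hrA
  rw [hpr g hg (hgA.trans (fib_sub hA)) hrg] at hgA
  exact hgA hyw

/-- The value at `B`. -/
def st (J P : Finset (Finset α)) (R : Finset α → Finset α) (B : Finset α) : ℤ :=
  ∑ w ∈ P.filter (fun w => w ⊆ B), bt J R B w

lemma HT.point_le (h : HT J P R) {B w : Finset α} (hB : B ∈ unions J) (hwP : w ∈ P)
    (hwB : w ⊆ B) :
    ((Ft J R B w).card : ℤ) - (if bt J R B w < 0 then 1 else 0) ≤ bt J R B w := by
  have h1 := h.bt_ge hB hwP hwB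
  by_cases hF : (Ft J R B w).Nonempty
  · have h2 := h.bt_forced hB hwP hwB hF
    split_ifs <;> linarith
  · rw [Finset.not_nonempty_iff_eq_empty] at hF
    rw [hF, Finset.card_empty]
    split_ifs with hn
    · push_cast
      linarith
    · push_cast
      linarith

/-- **The sum at every `B` is not negative.** -/
theorem HT.st_nonneg (h : HT J P R) {B : Finset α} (hB : B ∈ unions J) : 0 ≤ st J P R B := by
  classical
  set Q := P.filter (fun w => w ⊆ B) with hQ
  set L := Q.filter (fun w => bt J R B w < 0) with hL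
  have hcount : L.card ≤ ∑ v ∈ Q, (Ft J R B v).card := by
    rw [← Finset.card_sigma]
    apply Finset.card_le_card_of_forall_subsingleton
      (fun (w : Finset α) (t : (_ : Finset α) × α) => Chg J R B w t.2)
    · intro w hw
      obtain ⟨hwQ, hneg⟩ := Finset.mem_filter.1 hw
      obtain ⟨hwP, hwB⟩ := Finset.mem_filter.1 hwQ
      obtain ⟨v, hvP, hvB, y, hy, hch⟩ := h.charge hB hwP hwB hneg
      exact ⟨⟨v, y⟩, Finset.mem_sigma.2 ⟨Finset.mem_filter.2 ⟨hvP, hvB⟩, hy⟩, hch⟩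
    · rintro ⟨v, y⟩ _ w ⟨hw, hyw, ⟨A0, hA0, h0⟩, r, hr, hpr⟩
        w' ⟨hw', hyw', _, r', hr', hpr'⟩
      obtain ⟨hwQ, _⟩ := Finset.mem_filter.1 hw
      obtain ⟨hwP, hwB⟩ := Finset.mem_filter.1 hwQ
      obtain ⟨hwQ', _⟩ := Finset.mem_filter.1 hw'
      obtain ⟨hwP', hwB'⟩ := Finset.mem_filter.1 hwQ'
      by_contra hne
      have hr'w : r' ∉ w := fun hh => hne (hpr' w (h.PJ hwP) hwB hh)
      have hr'A0 : r' ∈ A0 := fib_out hA0 (hwB' hr') hr'w
      obtain ⟨g, hg, hgA, hrg⟩ := (mem_iff (mem_fib.1 hA0).1 r').1 hr'A0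
      rw [hpr' g hg (hgA.trans (fib_sub hA0)) hrg] at hgA
      obtain ⟨z, hz, hzw'⟩ := h.hit w hwP w' hwP' (fun hh => hne hh.symm) y hyw' hyw
      exact h0 z hz (hgA hzw')
  have h1 : ∑ w ∈ Q, (((Ft J R B w).card : ℤ) - (if bt J R B w < 0 then 1 else 0))
      ≤ st J P R B := by
    apply Finset.sum_le_sum
    intro w hw
    obtain ⟨hwP, hwB⟩ := Finset.mem_filter.1 hw
    exact h.point_le hB hwP hwB
  rw [Finset.sum_sub_distrib] at h1
  have h2 : ∑ w ∈ Q, (if bt J R B w < 0 then (1 : ℤ) else 0) = L.card := by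
    rw [← Finset.sum_filter, Finset.sum_const, nsmul_eq_mul, mul_one]
  have h3 : ((L.card : ℕ) : ℤ) ≤ ∑ v ∈ Q, ((Ft J R B v).card : ℤ) := by exact_mod_cast hcount
  rw [h2] at h1
  linarith

/-- The sum of the biases over the transversal of `w`. -/
lemma HT.sum_w (h : HT J P R) {w : Finset α} (hw : w ∈ P) :
    ∑ z ∈ R w, (2 * (fr (unions J) z : ℤ) - (unions J).card)
      = ∑ B ∈ (unions J).filter (fun B => w ⊆ B), bt J R B w := by
  rw [sum_fib (h.PJ hw) (R w)]
  apply Finset.sum_congr rfl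
  intro B _
  unfold bt
  apply Finset.sum_congr rfl
  intro A _
  have h1 : (R w \ A).card + (A ∩ R w).card = (R w).card := by
    rw [Finset.inter_comm]
    exact Finset.card_sdiff_add_card_inter (R w) A
  have h2 : ((R w \ A).card : ℤ) + (A ∩ R w).card = (R w).card := by exact_mod_cast h1
  linarith

lemma HT.total (h : HT J P R) :
    ∑ w ∈ P, ∑ z ∈ R w, (2 * (fr (unions J) z : ℤ) - (unions J).card)
      = ∑ B ∈ unions J, st J P R B := by
  have h1 : ∑ w ∈ P, ∑ z ∈ R w, (2 * (fr (unions J) z : ℤ) - (unions J).card)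
      = ∑ w ∈ P, ∑ B ∈ (unions J).filter (fun B => w ⊆ B), bt J R B w := by
    apply Finset.sum_congr rfl
    intro w hw
    exact h.sum_w hw
  rw [h1]
  unfold st
  simp_rw [Finset.sum_filter]
  exact Finset.sum_comm

end Pool.Agent.H97.R5
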